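import Pool.Agent.Lib.MP_ca0971_gt.Mf.Defs

/-!
# MP_ca0971_gt: embedded balls in a 3-manifold (general M)
-/

set_option autoImplicit false

namespace Pool.Agent.Lib.MP_ca0971_gt.Mf

open Set Metric
open scoped Manifold ContDiff

variable {M : Type} [TopologicalSpace M] [ChartedSpace E3 M]

/-- At every point of the closed ball g is a local homeomorphism: in the chart e at g p the map e ∘ g has an
injective, hence bijective, derivative at p; inverse function theorem. -/
theorem ball_loc {g : E3 → M} (hg : EmbBall g) {p : E3} (hp : p ∈ closedBall (0 : E3) 1) :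
    ∃ V : Set E3, IsOpen V ∧ p ∈ V ∧ InjOn g V ∧ ∀ W : Set E3, W ⊆ V → IsOpen W → IsOpen (g '' W) := by
  obtain ⟨U, hU, hBU, hcont, hsm⟩ := hg.smooth
  have he : chartAt E3 (g p) ∈ atlas E3 M := chart_mem_atlas E3 (g p)
  have hge : g p ∈ (chartAt E3 (g p)).source := mem_chart_source E3 (g p)
  set e := chartAt E3 (g p) with hedef
  have hW0 : IsOpen (U ∩ g ⁻¹' e.source) := hcont.isOpen_inter_preimage hU e.open_source
  have hpW : p ∈ U ∩ g ⁻¹' e.source := ⟨hBU hp, hge⟩
  have hcd : ContDiffAt ℝ ∞ (e ∘ g) p := (hsm e he).contDiffAt (hW0.mem_nhds hpW)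
  have hinj : Function.Injective (fderiv ℝ (e ∘ g) p) := hg.imm p hp e he hge
  let A : E3 ≃L[ℝ] E3 := (LinearEquiv.ofInjectiveEndo
    ((fderiv ℝ (e ∘ g) p : E3 →L[ℝ] E3) : E3 →ₗ[ℝ] E3) hinj).toContinuousLinearEquiv
  have hA : (A : E3 →L[ℝ] E3) = fderiv ℝ (e ∘ g) p := by
    ext x
    rfl
  have hst : HasStrictFDerivAt (e ∘ g) (A : E3 →L[ℝ] E3) p := by
    rw [hA]
    exact hcd.hasStrictFDerivAt (by simp)
  set Φ := hst.toOpenPartialHomeomorph (e ∘ g) with hΦ
  have hcoe : (Φ : E3 → E3) = e ∘ g := hst.toOpenPartialHomeomorph_coe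
  have hpΦ : p ∈ Φ.source := hst.mem_toOpenPartialHomeomorph_source
  refine ⟨Φ.source ∩ (U ∩ g ⁻¹' e.source), Φ.open_source.inter hW0, ⟨hpΦ, hpW⟩, ?_, ?_⟩
  · intro x hx y hy hxy
    refine Φ.injOn hx.1 hy.1 ?_
    rw [hcoe]
    simp only [Function.comp_apply, hxy]
  · intro W hWV hW
    have h1 : IsOpen (Φ '' W) := Φ.isOpen_image_of_subset_source hW fun x hx => (hWV hx).1
    have h2 : Φ '' W ⊆ e.target := by
      rintro _ ⟨x, hx, rfl⟩
      rw [hcoe]
      exact e.map_source (hWV hx).2.2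
    have h3 : g '' W = e.symm '' (Φ '' W) := by
      rw [image_image]
      refine image_congr fun x hx => ?_
      rw [hcoe]
      exact (e.left_inv (hWV hx).2.2).symm
    rw [h3]
    exact e.symm.isOpen_image_of_subset_source h1 h2

/-- The open ball has an open image. -/
theorem ball_open {g : E3 → M} (hg : EmbBall g) : IsOpen (g '' ball (0 : E3) 1) := by
  rw [isOpen_iff_forall_mem_open]
  rintro _ ⟨p, hp, rfl⟩
  obtain ⟨V, hV, hpV, -, hopen⟩ := ball_loc hg (ball_subset_closedBall hp)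
  exact ⟨g '' (V ∩ ball 0 1), image_mono inter_subset_right,
    hopen _ inter_subset_left (hV.inter isOpen_ball), mem_image_of_mem g ⟨hpV, hp⟩⟩

/-- The closed ball does not cover M: let |p| = 1 and V as in ball_loc; K = closedBall minus V is compact,
g p is not in the closed set g '' K, so g u is not in g '' K for u near p; if g u = g u' with |u'| ≤ 1 then
u' is not in K, so u' ∈ V, u' = u: all u near p are in the closed ball, contradiction. -/
theorem ball_not_all [T2Space M] {g : E3 → M} (hg : EmbBall g) :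
    g '' closedBall (0 : E3) 1 ≠ univ := by
  intro hall
  obtain ⟨U, hU, hBU, hcont, -⟩ := hg.smooth
  set p : E3 := bv 0 with hpdef
  have hn : ‖p‖ = 1 := by simp [hpdef, bv]
  have hp : p ∈ closedBall (0 : E3) 1 := by rw [mem_closedBall_zero_iff, hn]
  obtain ⟨V, hV, hpV, hinj, -⟩ := ball_loc hg hp
  have hK : IsCompact (closedBall (0 : E3) 1 \ V) := (isCompact_closedBall 0 1).diff hV
  have hgK : IsClosed (g '' (closedBall (0 : E3) 1 \ V)) :=
    (hK.image_of_continuousOn (hcont.mono (sdiff_subset.trans hBU))).isClosed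
  have hpK : g p ∈ (g '' (closedBall (0 : E3) 1 \ V))ᶜ := by
    rintro ⟨k, hk, hkp⟩
    have := hg.inj hk.1 hp hkp
    exact hk.2 (this ▸ hpV)
  have hev : ∀ᶠ u in nhds p, u ∈ V ∧ g u ∈ (g '' (closedBall (0 : E3) 1 \ V))ᶜ :=
    Filter.Eventually.and (hV.mem_nhds hpV)
      ((hcont.continuousAt (hU.mem_nhds (hBU hp))).eventually (hgK.isOpen_compl.mem_nhds hpK))
  have htend : Filter.Tendsto (fun t : ℝ => (1 + t) • p) (nhdsWithin 0 (Ioi 0)) (nhds p) := by
    have h1 : Filter.Tendsto (fun t : ℝ => (1 + t) • p) (nhds 0) (nhds ((1 + (0 : ℝ)) • p)) :=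
      ((continuous_const.add continuous_id).smul continuous_const).tendsto 0
    rw [add_zero, one_smul] at h1
    exact h1.mono_left nhdsWithin_le_nhds
  obtain ⟨t, ht, htpos⟩ := ((htend.eventually hev).and self_mem_nhdsWithin).exists
  obtain ⟨hV1, hK1⟩ := ht
  have hmem : g ((1 + t) • p) ∈ g '' closedBall (0 : E3) 1 := by rw [hall]; exact mem_univ _
  obtain ⟨u', hu', huu⟩ := hmem
  have hu'V : u' ∈ V := by
    by_contra h
    exact hK1 ⟨u', ⟨hu', h⟩, huu⟩
  have heq := hinj hu'V hV1 huu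
  rw [heq, mem_closedBall_zero_iff, norm_smul, hn, mul_one, Real.norm_eq_abs] at hu'
  have : (0 : ℝ) < t := htpos
  have := le_abs_self (1 + t)
  linarith

end Pool.Agent.Lib.MP_ca0971_gt.Mf
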