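import Pool.Agent.Lib.MP_ca0971_gt.Mf.Ex

/-!
# MP_ca0971_gt: the sphere {0} x S^2
-/

set_option autoImplicit false

namespace Pool.Agent.Lib.MP_ca0971_gt.Mf

open Set Metric
open scoped Manifold ContDiff

/-- the quotient map R x S^2 -> X3 -/
noncomputable def sphQ (p : ℝ × S2) : X3 := ((p.1 : AddCircle (Real.log 2)), p.2)

theorem sphQ_cont : Continuous sphQ := by
  have h : Continuous (fun p : ℝ × S2 => (((p.1 : ℝ) : AddCircle (Real.log 2)), p.2)) :=
    ((AddCircle.continuous_mk' (Real.log 2)).comp continuous_fst).prodMk continuous_snd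
  exact h

theorem sph_prj_cont : ContinuousOn prj ({0}ᶜ : Set E3) :=
  sphQ_cont.comp_continuousOn pol.continuousOn_invFun

theorem sph_sub : sphere (0 : E3) 1 ⊆ ({0}ᶜ : Set E3) := by
  intro y hy h0
  rw [mem_singleton_iff] at h0
  rw [h0, mem_sphere_zero_iff_norm, norm_zero] at hy
  exact zero_ne_one hy

/-- prj is smooth on R^3 - 0 (locally a dilation in every chart, cht_prj) and injective on the unit sphere
(prj_eq: 2^n = 1). -/
theorem emb_sphere : EmbSphere prj := by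
  refine ⟨⟨{0}ᶜ, isOpen_compl_singleton, sph_sub, sph_prj_cont, ?_⟩, ?_, ?_⟩
  · intro e he y hy
    obtain ⟨b, rfl⟩ := mem_atl.1 he
    obtain ⟨n, hn⟩ := cht_prj (show y ≠ 0 from hy.1) hy.2
    have h1 : ContDiffAt ℝ ∞ (fun y' : E3 => (2 : ℝ) ^ n • y') y :=
      (contDiff_const_smul ((2 : ℝ) ^ n)).contDiffAt
    have h2 : ((cht b) ∘ prj) =ᶠ[nhds y] fun y' : E3 => (2 : ℝ) ^ n • y' := by
      filter_upwards [hn] with z hz
      exact hz.2
    exact (h1.congr_of_eventuallyEq h2).contDiffWithinAt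
  · intro y hy y' hy' h
    obtain ⟨n, hn⟩ := (prj_eq (sph_sub hy) (sph_sub hy')).1 h
    rw [mem_sphere_zero_iff_norm] at hy hy'
    have h1 : ‖y'‖ = (2 : ℝ) ^ n * ‖y‖ := by
      rw [hn, norm_smul, Real.norm_eq_abs, abs_of_pos (zpow_pos (by norm_num) n)]
    rw [hy, hy', mul_one] at h1
    rw [hn, ← h1, one_smul]
  · intro p hp e he hpe u _ hu
    obtain ⟨b, rfl⟩ := mem_atl.1 he
    obtain ⟨n, hn⟩ := cht_prj (show p ≠ 0 from sph_sub hp) hpe
    have h2 : ((cht b) ∘ prj) =ᶠ[nhds p] fun y' : E3 => (2 : ℝ) ^ n • y' := by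
      filter_upwards [hn] with z hz
      exact hz.2
    have h3 : HasFDerivAt (fun y' : E3 => (2 : ℝ) ^ n • y')
        ((2 : ℝ) ^ n • ContinuousLinearMap.id ℝ E3) p :=
      (ContinuousLinearMap.hasFDerivAt ((2 : ℝ) ^ n • ContinuousLinearMap.id ℝ E3))
    rw [h2.fderiv_eq, h3.fderiv] at hu
    have h4 : (2 : ℝ) ^ n • u = 0 := hu
    exact (smul_eq_zero.1 h4).resolve_left (zpow_pos (by norm_num) n).ne'

theorem image_sphere : prj '' sphere (0 : E3) 1 = {x : X3 | x.1 = 0} := by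
  ext x
  constructor
  · rintro ⟨y, hy, rfl⟩
    rw [mem_sphere_zero_iff_norm] at hy
    show ((Real.log ‖y‖ : ℝ) : AddCircle (Real.log 2)) = 0
    rw [hy, Real.log_one]
    rfl
  · intro hx
    have hs : ‖(x.2 : E3)‖ = 1 := mem_sphere_zero_iff_norm.1 x.2.2
    refine ⟨(x.2 : E3), x.2.2, ?_⟩
    have h0 : (x.2 : E3) ≠ 0 := sph_sub x.2.2
    refine Prod.ext ?_ (Subtype.ext ?_)
    · show ((Real.log ‖(x.2 : E3)‖ : ℝ) : AddCircle (Real.log 2)) = x.1
      rw [hs, Real.log_one, show x.1 = 0 from hx]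
      rfl
    · show (dir (x.2 : E3) : E3) = x.2
      rw [dir_coe h0, hs, inv_one, one_smul]

/-- The complement is the image of (0, log 2) x S^2. -/
theorem compl_conn : IsPreconnected {x : X3 | x.1 ≠ 0} := by
  have hS : PreconnectedSpace S2 := by
    apply Subtype.preconnectedSpace
    apply isPreconnected_sphere
    rw [← Module.finrank_eq_rank, finrank_euclideanSpace, Fintype.card_fin]
    norm_num
  have h1 : IsPreconnected (Ioo (0 : ℝ) (Real.log 2) ×ˢ (univ : Set S2)) :=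
    isPreconnected_Ioo.prod isPreconnected_univ
  have h2 := h1.image sphQ sphQ_cont.continuousOn
  have h3 : sphQ '' (Ioo (0 : ℝ) (Real.log 2) ×ˢ (univ : Set S2)) = {x : X3 | x.1 ≠ 0} := by
    have hc := (AddCircle.openPartialHomeomorphCoe (Real.log 2) 0).image_source_eq_target
    rw [AddCircle.openPartialHomeomorphCoe_source, AddCircle.openPartialHomeomorphCoe_target,
      zero_add] at hc
    ext x
    constructor
    · rintro ⟨p, hp, rfl⟩
      have h4 : ((p.1 : ℝ) : AddCircle (Real.log 2)) ∈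
          ({((0 : ℝ) : AddCircle (Real.log 2))}ᶜ : Set (AddCircle (Real.log 2))) := by
        rw [← hc]
        exact ⟨p.1, hp.1, rfl⟩
      exact h4
    · intro hx
      have h4 : x.1 ∈ ({((0 : ℝ) : AddCircle (Real.log 2))}ᶜ : Set (AddCircle (Real.log 2))) := hx
      rw [← hc] at h4
      obtain ⟨t, ht, hte⟩ := h4
      exact ⟨(t, x.2), ⟨ht, mem_univ _⟩, Prod.ext hte rfl⟩
  rwa [h3] at h2

end Pool.Agent.Lib.MP_ca0971_gt.Mf
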