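import Pool.Agent.Lib.MP_ca0971_gt.Mf.Ex

/-!
# MP_ca0971_gt: lifting of discs to R^3 - 0

Choose ρ > 1 with closedBall 0 ρ ⊆ U. The continuous map ℂ → AddCircle, p ↦ (f (retraction of p to the
closed ball of radius ρ)).1, has a continuous lift ℂ → ℝ (AddCircle.isCoveringMap_coe,
IsCoveringMap.existsUnique_continuousMap_lifts). F p = exp (lift p) • (f p).2. Where f p is in the
source of a chart e = cht a, e (f p) = 2^n • F p with n locally constant (both are continuous and have the same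
projection: prj_eq), so F is smooth there.
-/

set_option autoImplicit false

namespace Pool.Agent.Lib.MP_ca0971_gt.Mf

open Set Metric
open scoped Manifold ContDiff

/-- The retraction of the plane to a closed ball. -/
private noncomputable def retr (ρ : ℝ) (p : ℂ) : ℂ := (ρ / max ρ ‖p‖) • p

private theorem retr_cont {ρ : ℝ} (hρ : 0 < ρ) : Continuous (retr ρ) := by
  unfold retr
  have h : ∀ p : ℂ, max ρ ‖p‖ ≠ 0 := fun p => (lt_of_lt_of_le hρ (le_max_left _ _)).ne'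
  exact (continuous_const.div (continuous_const.max continuous_norm) h).smul continuous_id

private theorem retr_mem {ρ : ℝ} (hρ : 0 < ρ) (p : ℂ) : retr ρ p ∈ closedBall (0 : ℂ) ρ := by
  have h : 0 < max ρ ‖p‖ := lt_of_lt_of_le hρ (le_max_left _ _)
  rw [mem_closedBall_zero_iff, retr, norm_smul, Real.norm_eq_abs, abs_of_pos (div_pos hρ h),
    div_mul_eq_mul_div, div_le_iff₀ h]
  exact mul_le_mul_of_nonneg_left (le_max_right _ _) hρ.le

private theorem retr_id {ρ : ℝ} (hρ : 0 < ρ) {p : ℂ} (hp : p ∈ ball (0 : ℂ) ρ) : retr ρ p = p := by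
  rw [mem_ball_zero_iff] at hp
  rw [retr, max_eq_left hp.le, div_self hρ.ne', one_smul]

/-- Polar coordinates of `exp t • s`. -/
private theorem prj_exp (t : ℝ) (x : S2) :
    Real.exp t • (x : E3) ≠ 0 ∧ prj (Real.exp t • (x : E3)) = ((t : AddCircle (Real.log 2)), x) := by
  have h1 : pol.symm (pol (t, x)) = (t, x) := pol.left_inv (mem_univ _)
  have h2 : Real.log ‖Real.exp t • (x : E3)‖ = t := congrArg Prod.fst h1
  have h3 : dir (Real.exp t • (x : E3)) = x := congrArg Prod.snd h1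
  constructor
  · exact pol.map_source (mem_univ (t, x))
  · unfold prj
    rw [h2, h3]

/-- Continuous lift. -/
theorem lift_cont {f : ℂ → X3} {U : Set ℂ} (hU : IsOpen U) (hb : closedBall (0 : ℂ) 1 ⊆ U)
    (hf : ContinuousOn f U) : ∃ V : Set ℂ, IsOpen V ∧ closedBall (0 : ℂ) 1 ⊆ V ∧ V ⊆ U ∧
      ∃ F : ℂ → E3, ContinuousOn F V ∧ ∀ p ∈ V, F p ≠ 0 ∧ prj (F p) = f p := by
  obtain ⟨δ, hδ, hδU⟩ := (isCompact_closedBall (0 : ℂ) 1).exists_cthickening_subset_open hU hb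
  rw [cthickening_closedBall hδ.le zero_le_one] at hδU
  have hρ : 0 < δ + 1 := by linarith
  set ρ := δ + 1 with hρd
  have hc : Continuous fun p => f (retr ρ p) :=
    hf.comp_continuous (retr_cont hρ) fun p => hδU (retr_mem hρ p)
  have hc1 : Continuous fun p => (f (retr ρ p)).1 :=
    (continuous_fst (X := AddCircle (Real.log 2)) (Y := S2)).comp hc
  have hc2 : Continuous fun p => ((f (retr ρ p)).2 : E3) :=
    continuous_subtype_val.comp ((continuous_snd (X := AddCircle (Real.log 2)) (Y := S2)).comp hc)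
  obtain ⟨t0, ht0⟩ := QuotientAddGroup.mk_surjective (f (retr ρ 0)).1
  obtain ⟨G, ⟨-, hG⟩, -⟩ := (AddCircle.isCoveringMap_coe (Real.log 2)).existsUnique_continuousMap_lifts
    (⟨fun p => (f (retr ρ p)).1, hc1⟩ : C(ℂ, AddCircle (Real.log 2))) 0 t0 ht0
  refine ⟨ball 0 ρ, isOpen_ball, closedBall_subset_ball (by linarith),
    fun p hp => hδU (ball_subset_closedBall hp), fun p => Real.exp (G p) • ((f (retr ρ p)).2 : E3),
    ((Real.continuous_exp.comp G.continuous).smul hc2).continuousOn, fun p hp => ?_⟩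
  refine ⟨(prj_exp _ _).1, ?_⟩
  have h1 : ((G p : ℝ) : AddCircle (Real.log 2)) = (f (retr ρ p)).1 := congrFun hG p
  have h2 := (prj_exp (G p) (f (retr ρ p)).2).2
  rw [h1, retr_id hρ hp] at h2
  beta_reduce
  rw [retr_id hρ hp]
  exact h2

/-- In a chart the lift is locally a dilation of the map. -/
theorem lift_loc {f : ℂ → X3} {V : Set ℂ} (hV : IsOpen V) (hf : ContinuousOn f V) {F : ℂ → E3}
    (hF : ContinuousOn F V) (h : ∀ p ∈ V, F p ≠ 0 ∧ prj (F p) = f p) {p : ℂ} (hp : p ∈ V) {a : ℝ}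
    (ha : f p ∈ (cht a).source) :
    ∃ n : ℤ, ∀ᶠ q in nhds p, q ∈ V ∧ f q ∈ (cht a).source ∧ cht a (f q) = (2 : ℝ) ^ n • F q := by
  obtain ⟨h0, h1⟩ := h p hp
  rw [← h1] at ha
  obtain ⟨n, hn⟩ := cht_prj h0 ha
  have hV' := hV.mem_nhds hp
  have hFc : ContinuousAt F p := hF.continuousAt hV'
  refine ⟨n, ?_⟩
  filter_upwards [hV', hFc.eventually hn] with q hq h2
  rw [(h q hq).2] at h2
  exact ⟨hq, h2⟩

/-- Smooth lift. -/
theorem lift_smooth {f : ℂ → X3} {U : Set ℂ} (hU : IsOpen U) (hb : closedBall (0 : ℂ) 1 ⊆ U)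
    (hf : SmoothMapOn f U) : ∃ V : Set ℂ, IsOpen V ∧ closedBall (0 : ℂ) 1 ⊆ V ∧
      ∃ F : ℂ → E3, ContDiffOn ℝ ∞ F V ∧ (∀ p ∈ V, F p ≠ 0 ∧ prj (F p) = f p) ∧
        ∀ p ∈ V, ∀ e ∈ atlas E3 X3, f p ∈ e.source → ∃ n : ℤ, e (f p) = (2 : ℝ) ^ n • F p ∧
          fderiv ℝ (e ∘ f) p = (2 : ℝ) ^ n • fderiv ℝ F p := by
  obtain ⟨V, hV, hbV, hVU, F, hF, h⟩ := lift_cont hU hb hf.1
  have hfV : ContinuousOn f V := hf.1.mono hVU
  have two : ∀ n : ℤ, (2 : ℝ) ^ n ≠ 0 := fun n => zpow_ne_zero n two_ne_zero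
  have hs : ∀ p ∈ V, ContDiffAt ℝ ∞ F p := by
    intro p hp
    obtain ⟨a, ha⟩ := exists_ne (f p)
    have ha' : f p ∈ (cht a).source := by
      rw [cht_source]
      exact ha
    obtain ⟨n, hn⟩ := lift_loc hV hfV hF h hp ha'
    have h1 := hf.2 (cht a) (mem_range_self a)
    have h2 : IsOpen (U ∩ f ⁻¹' (cht a).source) := hf.1.isOpen_inter_preimage hU (cht a).open_source
    have h3 : ContDiffAt ℝ ∞ (cht a ∘ f) p := h1.contDiffAt (h2.mem_nhds ⟨hVU hp, ha'⟩)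
    have h4 : ContDiffAt ℝ ∞ (fun q => ((2 : ℝ) ^ n)⁻¹ • (cht a ∘ f) q) p := h3.const_smul _
    refine h4.congr_of_eventuallyEq ?_
    filter_upwards [hn] with q hq
    have h5 : (cht a ∘ f) q = (2 : ℝ) ^ n • F q := hq.2.2
    rw [h5, smul_smul, inv_mul_cancel₀ (two n), one_smul]
  refine ⟨V, hV, hbV, F, fun p hp => (hs p hp).contDiffWithinAt, h, fun p hp e he hpe => ?_⟩
  obtain ⟨a, rfl⟩ := mem_atl.1 he
  obtain ⟨n, hn⟩ := lift_loc hV hfV hF h hp hpe
  refine ⟨n, hn.self_of_nhds.2.2, ?_⟩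
  have h6 : (cht a ∘ f) =ᶠ[nhds p] fun q => (2 : ℝ) ^ n • F q := by
    filter_upwards [hn] with q hq
    exact hq.2.2
  rw [h6.fderiv_eq]
  exact fderiv_fun_const_smul ((hs p hp).differentiableAt (by simp)) ((2 : ℝ) ^ n)

end Pool.Agent.Lib.MP_ca0971_gt.Mf
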