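import Pool.Agent.Lib.MP_ca0971_gt.Mf.Psi
import Pool.Agent.Lib.MP_ca0971_gt.Mf.Lift
import Pool.Agent.Lib.MP_ca0971_gt.OT.NoOT

/-!
# MP_ca0971_gt: both contact structures are tight

An overtwisted disc f of al s lifts to F (lift_smooth), and psi s ∘ F is an overtwisted disc of the
standard R^3 (OT.OTd): smooth, injective (f = prj ∘ F is injective on the closed disc, psi_inj), immersive
(psi_imm, fderiv F p injective because fderiv (e ∘ f) p is), boundary condition by psi_pull and cf_dil: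
stdB (..) = r cf s (F p) (dF u), cf s (2^n F p) (2^n dF u) = cf s (F p) (dF u). Contradiction to OT.noOT.
-/

set_option autoImplicit false

namespace Pool.Agent.Lib.MP_ca0971_gt.Mf

open Set Metric
open scoped Manifold ContDiff

theorem otd_of_disc {s : ℝ} (hs : s ^ 2 = 1) {f : ℂ → X3} (h : OTDisc (al s) f) :
    ∃ g : ℂ → ℂ × ℝ, OT.OTd g := by
  obtain ⟨U, hU, hb, hf⟩ := h.smooth
  obtain ⟨V, hV, hbV, F, hF, hp, hd⟩ := lift_smooth hU hb hf
  have hsb : sphere (0 : ℂ) 1 ⊆ closedBall (0 : ℂ) 1 := sphere_subset_closedBall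
  have hFd : ∀ p ∈ V, DifferentiableAt ℝ F p := fun p hpV =>
    (hF.contDiffAt (hV.mem_nhds hpV)).differentiableAt (by simp)
  have hpd : ∀ y : E3, y ≠ 0 → DifferentiableAt ℝ (psi s) y := fun y hy =>
    ((psi_smooth s).contDiffAt (isOpen_compl_singleton.mem_nhds hy)).differentiableAt (by simp)
  have hfd : ∀ p ∈ V, fderiv ℝ (psi s ∘ F) p = (fderiv ℝ (psi s) (F p)).comp (fderiv ℝ F p) :=
    fun p hpV => fderiv_comp p (hpd _ (hp p hpV).1) (hFd p hpV)
  have hch : ∀ p : ℂ, ∃ e ∈ atlas E3 X3, f p ∈ e.source := fun p =>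
    ⟨chartAt E3 (f p), chart_mem_atlas E3 (f p), mem_chart_source E3 (f p)⟩
  -- the form along the lift
  have key : ∀ p ∈ V, ∀ e ∈ atlas E3 X3, f p ∈ e.source → ∀ u : ℂ,
      OT.stdB ((psi s ∘ F) p) (fderiv ℝ (psi s ∘ F) p u) =
        ‖F p‖ * (al s).loc e (e (f p)) (fderiv ℝ (e ∘ f) p u) := by
    intro p hpV e he hpe u
    obtain ⟨n, h1, h2⟩ := hd p hpV e he hpe
    have h3 : (0 : ℝ) < 2 ^ n := zpow_pos two_pos n
    have h4 := congrArg (fun L : E3 →L[ℝ] ℝ => L (fderiv ℝ F p u)) (cf_dil s (hp p hpV).1 h3)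
    have h5 : cf s ((2 : ℝ) ^ n • F p) ((2 : ℝ) ^ n • fderiv ℝ F p u) = cf s (F p) (fderiv ℝ F p u) :=
      h4
    rw [hfd p hpV]
    have h6 : (al s).loc e (e (f p)) (fderiv ℝ (e ∘ f) p u) = cf s (F p) (fderiv ℝ F p u) := by
      rw [← h5, h1, h2]
      rfl
    rw [h6]
    exact psi_pull hs (hp p hpV).1 (fderiv ℝ F p u)
  have hn : ∀ p ∈ V, ‖F p‖ ≠ 0 := fun p hpV => norm_ne_zero_iff.2 (hp p hpV).1
  refine ⟨psi s ∘ F, ⟨V, hV, hbV, ?_⟩, ?_, ?_, ?_⟩
  · exact (psi_smooth s).comp hF fun p hpV => (hp p hpV).1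
  · intro p hpB q hqB hpq
    apply h.inj hpB hqB
    have h1 : F p = F q := psi_inj hs (hp p (hbV hpB)).1 (hp q (hbV hqB)).1 hpq
    rw [← (hp p (hbV hpB)).2, ← (hp q (hbV hqB)).2, h1]
  · intro p hpB
    rw [hfd p (hbV hpB)]
    refine (psi_imm hs (hp p (hbV hpB)).1).comp ?_
    obtain ⟨e, he, hpe⟩ := hch p
    obtain ⟨n, h1, h2⟩ := hd p (hbV hpB) e he hpe
    have h3 := h.imm p hpB e he hpe
    rw [h2] at h3
    intro u w huw
    replace huw : fderiv ℝ F p u = fderiv ℝ F p w := huw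
    apply h3
    change (2 : ℝ) ^ n • fderiv ℝ F p u = (2 : ℝ) ^ n • fderiv ℝ F p w
    rw [huw]
  · rcases h.bd with hbd | hbd
    · left
      intro p hpS u
      obtain ⟨e, he, hpe⟩ := hch p
      rw [key p (hbV (hsb hpS)) e he hpe u, hbd p hpS e he hpe u, mul_zero]
    · right
      intro p hpS
      obtain ⟨e, he, hpe⟩ := hch p
      obtain ⟨h1, u, h2⟩ := hbd p hpS e he hpe
      refine ⟨?_, u, ?_⟩
      · rw [key p (hbV (hsb hpS)) e he hpe, h1, mul_zero]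
      · rw [key p (hbV (hsb hpS)) e he hpe]
        exact mul_ne_zero (hn p (hbV (hsb hpS))) h2

theorem al_tight {s : ℝ} (hs : s ^ 2 = 1) : Tight (al s) := by
  intro f hf
  obtain ⟨g, hg⟩ := otd_of_disc hs hf
  exact OT.noOT g hg

end Pool.Agent.Lib.MP_ca0971_gt.Mf
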