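import Pool.Agent.Lib.MP_ca0971_gt.Mf.Top
import Pool.Agent.Lib.MP_ca0971_gt.Mf.Tight
import Pool.Agent.Lib.MP_ca0971_gt.Mf.Sph
import Pool.Agent.Lib.MP_ca0971_gt.Mf.Ball

/-!
# MP_ca0971_gt: the counterexample
-/

set_option autoImplicit false

namespace Pool.Agent.Lib.MP_ca0971_gt.Mf

open Set Metric
open scoped Manifold ContDiff

/-- If g '' sphere = {x.1 = 0} then the complement {x.1 ≠ 0} is the disjoint union of the open sets
g '' ball and (g '' closedBall)ᶜ; it is connected, so one of them is empty; the first is not, the second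
neither (ball_not_all). -/
theorem not_irr : ¬ Irreducible X3 := by
  intro h
  obtain ⟨g, hg, hS⟩ := h prj emb_sphere
  rw [image_sphere] at hS
  obtain ⟨U, hU, hBU, hcont, -⟩ := hg.smooth
  have hclosed : IsClosed (g '' closedBall (0 : E3) 1) :=
    ((isCompact_closedBall 0 1).image_of_continuousOn (hcont.mono hBU)).isClosed
  have hmem : ∀ x : X3, x.1 ≠ 0 ↔ x ∉ g '' sphere (0 : E3) 1 := by
    intro x
    rw [hS]; rfl
  have hcov : {x : X3 | x.1 ≠ 0} ⊆ g '' ball (0 : E3) 1 ∪ (g '' closedBall (0 : E3) 1)ᶜ := by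
    intro x hx
    by_cases hxB : x ∈ g '' closedBall (0 : E3) 1
    · obtain ⟨y, hy, rfl⟩ := hxB
      left
      refine ⟨y, ?_, rfl⟩
      rw [mem_ball_zero_iff]
      rw [mem_closedBall_zero_iff] at hy
      refine lt_of_le_of_ne hy fun h1 => ?_
      exact (hmem _).mp hx ⟨y, by rw [mem_sphere_zero_iff_norm, h1], rfl⟩
    · exact Or.inr hxB
  have hA : ({x : X3 | x.1 ≠ 0} ∩ g '' ball (0 : E3) 1).Nonempty := by
    refine ⟨g 0, (hmem _).mpr ?_, ⟨0, mem_ball_self one_pos, rfl⟩⟩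
    rintro ⟨y, hy, hy0⟩
    have := hg.inj (sphere_subset_closedBall hy) (mem_closedBall_self zero_le_one) hy0
    rw [this, mem_sphere_zero_iff_norm, norm_zero] at hy
    exact zero_ne_one hy
  have hB : ({x : X3 | x.1 ≠ 0} ∩ (g '' closedBall (0 : E3) 1)ᶜ).Nonempty := by
    obtain ⟨x, hx⟩ := (ne_univ_iff_exists_notMem _).mp (ball_not_all hg)
    exact ⟨x, (hmem _).mpr fun h1 => hx (image_mono sphere_subset_closedBall h1), hx⟩
  obtain ⟨x, -, hx1, hx2⟩ := compl_conn _ _ (ball_open hg) hclosed.isOpen_compl hcov hA hB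
  exact hx2 (image_mono ball_subset_closedBall hx1)

/-- The negated form of Q1. -/
theorem notQ1 : NotQ1 :=
  ⟨X3, inferInstance, inferInstance, isMfd, inferInstance, inferInstance, inferInstance, inferInstance,
    oriented, ⟨al (-1), al 1, ⟨al_neg, al_pos, ⟨zz, al_trans⟩, al_tight (by norm_num),
      al_tight (by norm_num)⟩⟩, not_irr⟩

end Pool.Agent.Lib.MP_ca0971_gt.Mf
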