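import Mathlib

/-!
# MP_ca0971_gt: tight positive contact pairs and irreducibility, definitions

General definitions for a smooth 3-manifold `M`, i.e. a charted space modelled on
`E3 = EuclideanSpace ℝ (Fin 3)` with `IsManifold (𝓡 3) ∞ M`. Tensor fields are given by their local
expressions in the charts of the atlas together with the transformation rule.
-/

set_option autoImplicit false

namespace Pool.Agent.Lib.MP_ca0971_gt.Mf

open Set Metric
open scoped Manifold ContDiff

/-- The model space. -/
abbrev E3 : Type := EuclideanSpace ℝ (Fin 3)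

/-- The coordinate vectors of the model space. -/
noncomputable def bv (i : Fin 3) : E3 := EuclideanSpace.single i (1 : ℝ)

section
variable (M : Type) [TopologicalSpace M] [ChartedSpace E3 M]

/-- `M` is oriented by its atlas: all coordinate changes have positive Jacobian determinant. -/
def OrientedAtlas : Prop :=
  ∀ e ∈ atlas E3 M, ∀ e' ∈ atlas E3 M, ∀ x ∈ e.source ∩ e'.source,
    0 < (fderiv ℝ (e' ∘ e.symm) (e x)).det

/-- A smooth 1-form on `M`: for every chart `e` of the atlas a smooth 1-form `loc e` on the open set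
`e.target` of the model space, with the transformation rule under coordinate changes. -/
structure OneForm where
  loc : OpenPartialHomeomorph M E3 → E3 → (E3 →L[ℝ] ℝ)
  smooth : ∀ e ∈ atlas E3 M, ContDiffOn ℝ ∞ (loc e) e.target
  compat : ∀ e ∈ atlas E3 M, ∀ e' ∈ atlas E3 M, ∀ x ∈ e.source ∩ e'.source,
    loc e (e x) = (loc e' (e' x)).comp (fderiv ℝ (e' ∘ e.symm) (e x))

/-- A smooth vector field on `M`. -/
structure VField where
  loc : OpenPartialHomeomorph M E3 → E3 → E3
  smooth : ∀ e ∈ atlas E3 M, ContDiffOn ℝ ∞ (loc e) e.target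
  compat : ∀ e ∈ atlas E3 M, ∀ e' ∈ atlas E3 M, ∀ x ∈ e.source ∩ e'.source,
    loc e' (e' x) = fderiv ℝ (e' ∘ e.symm) (e x) (loc e (e x))

end

/-- The coefficient of `a ∧ da` with respect to the standard volume form of the model space:
`da (u, v) = (D_u a)(v) - (D_v a)(u)`. -/
noncomputable def wed (a : E3 → (E3 →L[ℝ] ℝ)) (y : E3) : ℝ :=
  a y (bv 0) * (fderiv ℝ a y (bv 1) (bv 2) - fderiv ℝ a y (bv 2) (bv 1)) +
    a y (bv 1) * (fderiv ℝ a y (bv 2) (bv 0) - fderiv ℝ a y (bv 0) (bv 2)) +
    a y (bv 2) * (fderiv ℝ a y (bv 0) (bv 1) - fderiv ℝ a y (bv 1) (bv 0))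

section
variable {M : Type} [TopologicalSpace M] [ChartedSpace E3 M]

/-- `ker α` is a positive (cooriented) contact structure: `α ∧ dα > 0` with respect to the orientation
given by the atlas. -/
def PosContact (α : OneForm M) : Prop :=
  ∀ e ∈ atlas E3 M, ∀ y ∈ e.target, 0 < wed (α.loc e) y

/-- `ker α` is a negative (cooriented) contact structure: `α ∧ dα < 0`. -/
def NegContact (α : OneForm M) : Prop :=
  ∀ e ∈ atlas E3 M, ∀ y ∈ e.target, wed (α.loc e) y < 0

/-- `f` is smooth on the open set `U` of the normed space `F`. -/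
def SmoothMapOn {F : Type} [NormedAddCommGroup F] [NormedSpace ℝ F] (f : F → M) (U : Set F) : Prop :=
  ContinuousOn f U ∧ ∀ e ∈ atlas E3 M, ContDiffOn ℝ ∞ (e ∘ f) (U ∩ f ⁻¹' e.source)

/-- `f` (restricted to the closed unit disc) is an overtwisted disc for `ker α`: it is smooth on a
neighbourhood of the closed unit disc, injective and immersive on the closed disc, the boundary is
tangent to `ker α`, and EITHER the tangent plane of the disc is `ker α` at every point of the boundary, OR
it is different from `ker α` at every point of the boundary (both usual forms of the definition). -/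
structure OTDisc (α : OneForm M) (f : ℂ → M) : Prop where
  smooth : ∃ U : Set ℂ, IsOpen U ∧ closedBall (0 : ℂ) 1 ⊆ U ∧ SmoothMapOn f U
  inj : InjOn f (closedBall (0 : ℂ) 1)
  imm : ∀ p ∈ closedBall (0 : ℂ) 1, ∀ e ∈ atlas E3 M, f p ∈ e.source →
    Function.Injective (fderiv ℝ (e ∘ f) p)
  bd : (∀ p ∈ sphere (0 : ℂ) 1, ∀ e ∈ atlas E3 M, f p ∈ e.source →
      ∀ u, α.loc e (e (f p)) (fderiv ℝ (e ∘ f) p u) = 0) ∨
    (∀ p ∈ sphere (0 : ℂ) 1, ∀ e ∈ atlas E3 M, f p ∈ e.source →
      α.loc e (e (f p)) (fderiv ℝ (e ∘ f) p (Complex.I * p)) = 0 ∧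
        ∃ u, α.loc e (e (f p)) (fderiv ℝ (e ∘ f) p u) ≠ 0)

/-- `ker α` is tight: it contains no overtwisted disc. -/
def Tight (α : OneForm M) : Prop := ∀ f : ℂ → M, ¬ OTDisc α f

/-- `(ker αm, ker αp)` is a tight positive contact pair: `ker αm` is a negative and `ker αp` a positive
contact structure, there is a vector field (positively) transverse to both, and both are tight. -/
structure TightPositivePair (αm αp : OneForm M) : Prop where
  neg : NegContact αm
  pos : PosContact αp
  transverse : ∃ Z : VField M, ∀ e ∈ atlas E3 M, ∀ y ∈ e.target,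
    0 < αm.loc e y (Z.loc e y) ∧ 0 < αp.loc e y (Z.loc e y)
  tight_neg : Tight αm
  tight_pos : Tight αp

/-- `j` restricted to the unit sphere is a smoothly embedded 2-sphere. -/
structure EmbSphere (j : E3 → M) : Prop where
  smooth : ∃ U : Set E3, IsOpen U ∧ sphere (0 : E3) 1 ⊆ U ∧ SmoothMapOn j U
  inj : InjOn j (sphere (0 : E3) 1)
  imm : ∀ p ∈ sphere (0 : E3) 1, ∀ e ∈ atlas E3 M, j p ∈ e.source →
    ∀ u : E3, inner ℝ p u = 0 → fderiv ℝ (e ∘ j) p u = 0 → u = 0

/-- `g` restricted to the closed unit ball is a smoothly embedded 3-ball. -/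
structure EmbBall (g : E3 → M) : Prop where
  smooth : ∃ U : Set E3, IsOpen U ∧ closedBall (0 : E3) 1 ⊆ U ∧ SmoothMapOn g U
  inj : InjOn g (closedBall (0 : E3) 1)
  imm : ∀ p ∈ closedBall (0 : E3) 1, ∀ e ∈ atlas E3 M, g p ∈ e.source →
    Function.Injective (fderiv ℝ (e ∘ g) p)

end

/-- `M` is irreducible: every smoothly embedded 2-sphere is the boundary sphere of an embedded
3-ball. -/
def Irreducible (M : Type) [TopologicalSpace M] [ChartedSpace E3 M] : Prop :=
  ∀ j : E3 → M, EmbSphere j →
    ∃ g : E3 → M, EmbBall g ∧ g '' sphere (0 : E3) 1 = j '' sphere (0 : E3) 1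

/-- The negated form of Q1: there is a closed, connected, oriented smooth 3-manifold which carries a
tight positive contact pair and is not irreducible. -/
def NotQ1 : Prop :=
  ∃ (M : Type) (_ : TopologicalSpace M) (_ : ChartedSpace E3 M),
    IsManifold (𝓡 3) ∞ M ∧ CompactSpace M ∧ T2Space M ∧ SecondCountableTopology M ∧
    ConnectedSpace M ∧ OrientedAtlas M ∧ (∃ αm αp : OneForm M, TightPositivePair αm αp) ∧
    ¬ Irreducible M

end Pool.Agent.Lib.MP_ca0971_gt.Mf
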