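import Pool.Agent.Lib.MP_ca0971_gt.Mf.Defs

/-!
# MP_ca0971_gt: the manifold S^1 x S^2 with explicit charts

`X3 = (R / log 2) x S^2`. The map `prj y = (log |y| mod log 2, y / |y|)` from `R^3 - 0` to `X3` is the
quotient by the dilations `y ↦ 2^n y`; the charts `cht a` are its inverses on the shells
`exp a < |y| < 2 exp a`.
-/

set_option autoImplicit false

namespace Pool.Agent.Lib.MP_ca0971_gt.Mf

open Set Metric
open scoped Manifold ContDiff

instance factL : Fact (0 < Real.log 2) := ⟨Real.log_pos (by norm_num)⟩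

/-- The unit sphere. -/
abbrev S2 : Type := sphere (0 : E3) 1

/-- The manifold. -/
def X3 : Type := AddCircle (Real.log 2) × S2

noncomputable instance : TopologicalSpace X3 :=
  inferInstanceAs (TopologicalSpace (AddCircle (Real.log 2) × S2))

theorem norm_bv (i : Fin 3) : ‖bv i‖ = 1 := by simp [bv]

/-- Direction of a vector. -/
noncomputable def dir (y : E3) : S2 :=
  if h : y ≠ 0 then ⟨‖y‖⁻¹ • y, by
    rw [mem_sphere_zero_iff_norm, norm_smul, norm_inv, norm_norm, inv_mul_cancel₀ (norm_ne_zero_iff.mpr h)]⟩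
  else ⟨bv 0, by rw [mem_sphere_zero_iff_norm, norm_bv]⟩

theorem dir_coe {y : E3} (h : y ≠ 0) : (dir y : E3) = ‖y‖⁻¹ • y := by
  simp [dir, h]

/-- Polar coordinates. -/
noncomputable def pol : OpenPartialHomeomorph (ℝ × S2) E3 where
  toFun p := Real.exp p.1 • (p.2 : E3)
  invFun y := (Real.log ‖y‖, dir y)
  source := univ
  target := {0}ᶜ
  map_source' := by
    intro p _ h
    have h2 : Real.exp p.1 • (p.2 : E3) = 0 := h
    rw [smul_eq_zero] at h2
    rcases h2 with h2 | h2
    · exact (Real.exp_pos _).ne' h2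
    · have := p.2.2
      rw [h2, mem_sphere_zero_iff_norm, norm_zero] at this
      exact zero_ne_one this
  map_target' := fun _ _ => mem_univ _
  left_inv' := by
    rintro ⟨t, s⟩ _
    have hs : ‖(s : E3)‖ = 1 := mem_sphere_zero_iff_norm.mp s.2
    have hn : ‖Real.exp t • (s : E3)‖ = Real.exp t := by
      rw [norm_smul, hs, mul_one, Real.norm_eq_abs, abs_of_pos (Real.exp_pos t)]
    have h0 : Real.exp t • (s : E3) ≠ 0 := by
      rw [← norm_ne_zero_iff, hn]; exact (Real.exp_pos t).ne'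
    refine Prod.ext ?_ (Subtype.ext ?_)
    · simp only [hn, Real.log_exp]
    · simp only [dir_coe h0, hn, smul_smul, inv_mul_cancel₀ (Real.exp_pos t).ne', one_smul]
  right_inv' := by
    intro y hy
    have hy0 : y ≠ 0 := hy
    simp only [dir_coe hy0]
    rw [Real.exp_log (norm_pos_iff.mpr hy0), smul_smul, mul_inv_cancel₀ (norm_ne_zero_iff.mpr hy0),
      one_smul]
  open_source := isOpen_univ
  open_target := isOpen_compl_singleton
  continuousOn_toFun := by
    refine Continuous.continuousOn ?_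
    exact (Real.continuous_exp.comp continuous_fst).smul (continuous_subtype_val.comp continuous_snd)
  continuousOn_invFun := by
    refine ContinuousOn.prodMk ?_ ?_
    · exact ContinuousOn.log continuous_norm.continuousOn fun y hy => norm_ne_zero_iff.mpr hy
    · rw [Topology.IsInducing.subtypeVal.continuousOn_iff]
      have h1 : ContinuousOn (fun y : E3 => ‖y‖⁻¹ • y) {0}ᶜ :=
        (continuous_norm.continuousOn.inv₀ fun y hy => norm_ne_zero_iff.mpr hy).smul
          continuousOn_id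
      exact h1.congr fun y hy => dir_coe hy

/-- The projection. -/
noncomputable def prj (y : E3) : X3 := (((Real.log ‖y‖ : ℝ) : AddCircle (Real.log 2)), dir y)

/-- The charts. -/
noncomputable def cht (a : ℝ) : OpenPartialHomeomorph X3 E3 :=
  (((AddCircle.openPartialHomeomorphCoe (Real.log 2) a).symm.prod
    (OpenPartialHomeomorph.refl S2)).trans pol :
      OpenPartialHomeomorph (AddCircle (Real.log 2) × S2) E3)

theorem cht_symm (a : ℝ) (y : E3) : (cht a).symm y = prj y := rfl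

theorem cht_source (a : ℝ) : (cht a).source = {x : X3 | x.1 ≠ ((a : ℝ) : AddCircle (Real.log 2))} := by
  ext x
  simp only [cht, pol, OpenPartialHomeomorph.trans_source, OpenPartialHomeomorph.prod_source,
    OpenPartialHomeomorph.symm_source, AddCircle.openPartialHomeomorphCoe_target,
    OpenPartialHomeomorph.refl_source, preimage_univ, inter_univ]
  exact ⟨fun h => h.1, fun h => ⟨h, mem_univ _⟩⟩

theorem cht_target (a : ℝ) : (cht a).target =
    {y : E3 | y ≠ 0 ∧ a < Real.log ‖y‖ ∧ Real.log ‖y‖ < a + Real.log 2} := by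
  ext x
  simp [cht, pol, and_comm]

theorem exists_ne (x : X3) : ∃ a : ℝ, x.1 ≠ ((a : ℝ) : AddCircle (Real.log 2)) := by
  obtain ⟨t, ht⟩ := QuotientAddGroup.mk_surjective x.1
  refine ⟨t + Real.log 2 / 2, ?_⟩
  rw [← ht]
  intro h
  have h2 : ((t + Real.log 2 / 2 : ℝ) : AddCircle (Real.log 2)) = (t : AddCircle (Real.log 2)) := h.symm
  have hL := factL.out
  have h3 := (AddCircle.coe_eq_coe_iff_of_mem_Ico (p := Real.log 2) (a := t)
    (x := t + Real.log 2 / 2) (y := t) ⟨by linarith, by linarith⟩ ⟨le_refl _, by linarith⟩).mp h2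
  linarith

noncomputable instance : ChartedSpace E3 X3 where
  atlas := range cht
  chartAt x := cht (exists_ne x).choose
  mem_chart_source x := by
    rw [cht_source]; exact (exists_ne x).choose_spec
  chart_mem_atlas x := mem_range_self _

theorem mem_atl {e : OpenPartialHomeomorph X3 E3} : e ∈ atlas E3 X3 ↔ ∃ a, e = cht a :=
  ⟨fun ⟨a, h⟩ => ⟨a, h.symm⟩, fun ⟨a, h⟩ => ⟨a, h.symm⟩⟩

theorem log_zpow_smul {y : E3} (h : y ≠ 0) (n : ℤ) :
    Real.log ‖(2 : ℝ) ^ n • y‖ = n * Real.log 2 + Real.log ‖y‖ := by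
  have h2 : ‖(2 : ℝ) ^ n‖ = (2 : ℝ) ^ n := by
    rw [Real.norm_eq_abs, abs_of_pos (by positivity)]
  rw [norm_smul, h2, Real.log_mul (by positivity) (norm_ne_zero_iff.mpr h), Real.log_zpow]

/-- The fibres of the projection: `prj y = prj y'` iff `y' = 2^n y`. -/
theorem prj_eq {y y' : E3} (h : y ≠ 0) (h' : y' ≠ 0) :
    prj y = prj y' ↔ ∃ n : ℤ, y' = (2 : ℝ) ^ n • y := by
  have hy := norm_pos_iff.mpr h
  have hy' := norm_pos_iff.mpr h'
  constructor
  · intro e
    have e1 : ((Real.log ‖y‖ : ℝ) : AddCircle (Real.log 2)) = ((Real.log ‖y'‖ : ℝ) : AddCircle _) :=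
      congrArg Prod.fst e
    have e2 : dir y = dir y' := congrArg Prod.snd e
    have e3 : ((Real.log ‖y'‖ - Real.log ‖y‖ : ℝ) : AddCircle (Real.log 2)) = 0 := by
      rw [AddCircle.coe_sub, e1, sub_self]
    obtain ⟨n, hn⟩ := (AddCircle.coe_eq_zero_iff _).mp e3
    refine ⟨n, ?_⟩
    have e4 : Real.log ‖y'‖ = Real.log ‖(2 : ℝ) ^ n • y‖ := by
      rw [log_zpow_smul h, ← zsmul_eq_mul, hn]
      ring
    have h2 : (2 : ℝ) ^ n • y ≠ 0 := smul_ne_zero (by positivity) h
    have e5 : ‖y'‖ = ‖(2 : ℝ) ^ n • y‖ :=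
      Real.log_injOn_pos hy' (norm_pos_iff.mpr h2) e4
    have e6 : ‖y‖⁻¹ • y = ‖y'‖⁻¹ • y' := by
      rw [← dir_coe h, ← dir_coe h', e2]
    have e7 : ‖y'‖ = (2 : ℝ) ^ n * ‖y‖ := by
      rw [e5, norm_smul, Real.norm_eq_abs, abs_of_pos (by positivity)]
    calc y' = ‖y'‖ • (‖y'‖⁻¹ • y') := by
          rw [smul_smul, mul_inv_cancel₀ hy'.ne', one_smul]
      _ = ((2 : ℝ) ^ n * ‖y‖) • (‖y‖⁻¹ • y) := by rw [← e6, e7]
      _ = (2 : ℝ) ^ n • y := by
          rw [smul_smul, mul_assoc, mul_inv_cancel₀ hy.ne', mul_one]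
  · rintro ⟨n, rfl⟩
    refine Prod.ext ?_ (Subtype.ext ?_)
    · show ((Real.log ‖y‖ : ℝ) : AddCircle (Real.log 2)) =
        ((Real.log ‖(2 : ℝ) ^ n • y‖ : ℝ) : AddCircle (Real.log 2))
      rw [log_zpow_smul h, AddCircle.coe_add]
      have : ((n * Real.log 2 : ℝ) : AddCircle (Real.log 2)) = 0 :=
        (AddCircle.coe_eq_zero_iff _).mpr ⟨n, by rw [zsmul_eq_mul]⟩
      rw [this, zero_add]
    · show (dir y : E3) = dir ((2 : ℝ) ^ n • y)
      have h2 : ‖(2 : ℝ) ^ n‖ = (2 : ℝ) ^ n := by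
        rw [Real.norm_eq_abs, abs_of_pos (by positivity)]
      rw [dir_coe h, dir_coe h', norm_smul, h2, smul_smul]
      congr 1
      have h3 : (2 : ℝ) ^ n ≠ 0 := by positivity
      field_simp

/-- In a chart the projection is locally a dilation: let `n` be the integer with
`cht b (prj y) = 2^n y` (`prj_eq`, `cht_symm`); by continuity the same `n` works near `y`
(`a < log |y'| + n log 2 < a + log 2` is an open condition and `cht b` is the inverse of `prj`). -/
theorem cht_prj {y : E3} (h : y ≠ 0) {b : ℝ} (hb : prj y ∈ (cht b).source) :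
    ∃ n : ℤ, ∀ᶠ y' in nhds y, prj y' ∈ (cht b).source ∧ cht b (prj y') = (2 : ℝ) ^ n • y' := by
  have hz : cht b (prj y) ∈ (cht b).target := (cht b).map_source hb
  have hz0 : cht b (prj y) ≠ 0 := by
    have := hz
    rw [cht_target] at this
    exact this.1
  have e : prj y = prj (cht b (prj y)) := by
    rw [← cht_symm b (cht b (prj y)), (cht b).left_inv hb]
  obtain ⟨n, hn⟩ := (prj_eq h hz0).mp e
  refine ⟨n, ?_⟩
  have hc : Filter.Tendsto (fun y' : E3 => (2 : ℝ) ^ n • y') (nhds y) (nhds ((2 : ℝ) ^ n • y)) :=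
    (continuous_const_smul ((2 : ℝ) ^ n)).continuousAt
  rw [hn] at hz
  filter_upwards [hc ((cht b).open_target.mem_nhds hz), isOpen_ne.mem_nhds h] with y' h1 h2
  have h3 : prj y' = (cht b).symm ((2 : ℝ) ^ n • y') := by
    rw [cht_symm]
    exact (prj_eq h2 (smul_ne_zero (by positivity) h2)).mpr ⟨n, rfl⟩
  rw [h3]
  exact ⟨(cht b).map_target h1, (cht b).right_inv h1⟩

/-- Coordinate changes are locally dilations. -/
theorem cht_change {a b : ℝ} {x : X3} (ha : x ∈ (cht a).source) (hb : x ∈ (cht b).source) :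
    cht a x ≠ 0 ∧ ∃ n : ℤ, cht b x = (2 : ℝ) ^ n • cht a x ∧
      (cht b ∘ (cht a).symm) =ᶠ[nhds (cht a x)] fun y => (2 : ℝ) ^ n • y := by
  have hy : cht a x ≠ 0 := by
    have := (cht a).map_source ha
    rw [cht_target] at this
    exact this.1
  have e : prj (cht a x) = x := by
    rw [← cht_symm a (cht a x), (cht a).left_inv ha]
  refine ⟨hy, ?_⟩
  obtain ⟨n, hn⟩ := cht_prj hy (b := b) (by rw [e]; exact hb)
  refine ⟨n, ?_, ?_⟩
  · have := hn.self_of_nhds.2
    rwa [e] at this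
  · filter_upwards [hn] with y' h1
    exact h1.2

theorem fderiv_change {a b : ℝ} {x : X3} (ha : x ∈ (cht a).source) (hb : x ∈ (cht b).source) :
    ∃ n : ℤ, cht b x = (2 : ℝ) ^ n • cht a x ∧
      fderiv ℝ (cht b ∘ (cht a).symm) (cht a x) = (2 : ℝ) ^ n • ContinuousLinearMap.id ℝ E3 := by
  obtain ⟨-, n, h1, h2⟩ := cht_change ha hb
  refine ⟨n, h1, ?_⟩
  rw [h2.fderiv_eq]
  exact ((hasFDerivAt_id (𝕜 := ℝ) (cht a x)).const_smul ((2 : ℝ) ^ n)).fderiv

end Pool.Agent.Lib.MP_ca0971_gt.Mf
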