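import Pool.Agent.Lib.MP_ca0971_gt.Mf.Ex

/-!
# MP_ca0971_gt: the contact forms and the vector field

In every chart (r = |y|, y = (X, Y, w)): α = (1/r) (dw + (s/r) (X dY - Y dX)), s = 1 or -1, Z = r ∂_w.
On S^1 x S^2 (θ = log r, (x, y, z) on the unit sphere) this is z dθ + s (x dy - y dx) + dz and
z ∂_θ + grad z.
-/

set_option autoImplicit false

namespace Pool.Agent.Lib.MP_ca0971_gt.Mf

open Set Metric
open scoped Manifold ContDiff

/-- The 1-form. -/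
noncomputable def cf (s : ℝ) (y : E3) : E3 →L[ℝ] ℝ :=
  ‖y‖⁻¹ • ((EuclideanSpace.proj 2 : E3 →L[ℝ] ℝ) + (s * ‖y‖⁻¹) •
    ((y 0) • (EuclideanSpace.proj 1 : E3 →L[ℝ] ℝ) - (y 1) • (EuclideanSpace.proj 0 : E3 →L[ℝ] ℝ)))

/-- The vector field. -/
noncomputable def zf (y : E3) : E3 := ‖y‖ • bv 2

theorem cf_apply (s : ℝ) (y u : E3) :
    cf s y u = ‖y‖⁻¹ * (u 2 + s * ‖y‖⁻¹ * (y 0 * u 1 - y 1 * u 0)) := by
  simp [cf]
  ring

private theorem inv_norm_smooth : ContDiffOn ℝ ∞ (fun y : E3 => ‖y‖⁻¹) {0}ᶜ := by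
  refine ContDiffOn.inv (ContDiffOn.norm ℝ contDiffOn_id fun y hy => hy) ?_
  intro y hy
  exact norm_ne_zero_iff.mpr hy

private theorem coord_smooth (i : Fin 3) : ContDiff ℝ ∞ (fun y : E3 => y i) :=
  (EuclideanSpace.proj i : E3 →L[ℝ] ℝ).contDiff

theorem cf_smooth (s : ℝ) : ContDiffOn ℝ ∞ (cf s) {0}ᶜ := by
  have h1 := inv_norm_smooth
  have h0 := (coord_smooth 0).contDiffOn (s := ({0}ᶜ : Set E3))
  have h2 := (coord_smooth 1).contDiffOn (s := ({0}ᶜ : Set E3))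
  exact h1.smul (contDiffOn_const.add ((contDiffOn_const.mul h1).smul
    ((h0.smul contDiffOn_const).sub (h2.smul contDiffOn_const))))

theorem zf_smooth : ContDiffOn ℝ ∞ zf {0}ᶜ :=
  (ContDiffOn.norm ℝ contDiffOn_id fun _ hy => hy).smul contDiffOn_const

/-- Invariance under dilations. -/
theorem cf_dil (s : ℝ) {y : E3} (h : y ≠ 0) {c : ℝ} (hc : 0 < c) :
    (cf s (c • y)).comp (c • ContinuousLinearMap.id ℝ E3) = cf s y := by
  have hn : ‖y‖ ≠ 0 := norm_ne_zero_iff.mpr h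
  ext u
  rw [ContinuousLinearMap.comp_apply, cf_apply, cf_apply]
  simp only [smul_apply, ContinuousLinearMap.id_apply, PiLp.smul_apply,
    smul_eq_mul, norm_smul, Real.norm_eq_abs, abs_of_pos hc]
  field_simp

theorem zf_dil (y : E3) {c : ℝ} (hc : 0 < c) : zf (c • y) = c • zf y := by
  simp only [zf, norm_smul, Real.norm_eq_abs, abs_of_pos hc, smul_smul]

private theorem inv_norm_deriv {y : E3} (h : y ≠ 0) :
    HasFDerivAt (fun y : E3 => ‖y‖⁻¹) ((-(‖y‖⁻¹) ^ 3) • innerSL ℝ y) y := by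
  have hn : ‖y‖ ≠ 0 := norm_ne_zero_iff.mpr h
  have h1 : HasFDerivAt (fun y : E3 => ‖y‖ ^ 2) (2 • innerSL ℝ y) y :=
    (hasStrictFDerivAt_norm_sq y).hasFDerivAt
  have h2 := h1.sqrt (by positivity)
  have h3 : (fun y : E3 => √(‖y‖ ^ 2)) = fun y => ‖y‖ := by
    ext z; exact Real.sqrt_sq (norm_nonneg z)
  rw [h3, Real.sqrt_sq (norm_nonneg y)] at h2
  have h4 := (hasDerivAt_inv hn).comp_hasFDerivAt y h2
  refine h4.congr_fderiv ?_
  ext u
  simp only [smul_apply, smul_eq_mul, nsmul_eq_mul, Nat.cast_ofNat]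
  field_simp

private theorem cf_deriv (s : ℝ) {y : E3} (h : y ≠ 0) (u v : E3) :
    fderiv ℝ (cf s) y u v =
      (-(‖y‖⁻¹) ^ 3 * inner ℝ y u) * (v 2 + s * ‖y‖⁻¹ * (y 0 * v 1 - y 1 * v 0)) +
        ‖y‖⁻¹ * (s * (-(‖y‖⁻¹) ^ 3 * inner ℝ y u) * (y 0 * v 1 - y 1 * v 0) +
          s * ‖y‖⁻¹ * (u 0 * v 1 - u 1 * v 0)) := by
  have hd : DifferentiableAt ℝ (cf s) y :=
    ((cf_smooth s).contDiffAt (isOpen_compl_singleton.mem_nhds h)).differentiableAt (by simp)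
  have e1 : fderiv ℝ (cf s) y u v = fderiv ℝ (fun y' => cf s y' v) y u := by
    have := (hd.hasFDerivAt.clm_apply (hasFDerivAt_const v y)).fderiv
    rw [this]
    simp
  rw [e1]
  have e2 : (fun y' => cf s y' v) =
      fun y' : E3 => ‖y'‖⁻¹ * (v 2 + s * ‖y'‖⁻¹ * (y' 0 * v 1 - y' 1 * v 0)) := by
    ext y'; exact cf_apply s y' v
  rw [e2]
  have hh := inv_norm_deriv h
  have p0 : HasFDerivAt (fun y' : E3 => y' 0) (EuclideanSpace.proj 0 : E3 →L[ℝ] ℝ) y :=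
    (EuclideanSpace.proj 0 : E3 →L[ℝ] ℝ).hasFDerivAt
  have p1 : HasFDerivAt (fun y' : E3 => y' 1) (EuclideanSpace.proj 1 : E3 →L[ℝ] ℝ) y :=
    (EuclideanSpace.proj 1 : E3 →L[ℝ] ℝ).hasFDerivAt
  have hD := hh.mul (((hh.const_mul s).mul ((p0.mul_const (v 1)).sub (p1.mul_const (v 0)))).const_add
    (v 2))
  have e3 : fderiv ℝ (fun y' : E3 => ‖y'‖⁻¹ * (v 2 + s * ‖y'‖⁻¹ * (y' 0 * v 1 - y' 1 * v 0))) y = _ :=
    hD.fderiv
  have q : ∀ i : Fin 3, (EuclideanSpace.proj i : E3 →L[ℝ] ℝ) u = u i := fun i => rfl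
  rw [e3]
  simp only [add_apply, smul_apply, Pi.sub_apply, Pi.mul_apply,
    sub_apply, smul_eq_mul, innerSL_apply_apply, q]
  ring

/-- α ∧ dα. With g = 1/r: d(dw + s g (X dY - Y dX)) = s (dg ∧ (X dY - Y dX) + 2 g dX ∧ dY), so
β ∧ dβ = s (2 g + X g_X + Y g_Y) = s (r^2 + w^2) / r^3, and α ∧ dα = (1/r^2) β ∧ dβ. -/
theorem wed_cf (s : ℝ) {y : E3} (h : y ≠ 0) :
    wed (cf s) y = s * (‖y‖ ^ 2 + (y 2) ^ 2) / ‖y‖ ^ 5 := by
  have hn : ‖y‖ ≠ 0 := norm_ne_zero_iff.mpr h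
  have hi : ∀ i : Fin 3, inner ℝ y (bv i) = y i := by
    intro i
    rw [real_inner_comm]
    simp [bv, EuclideanSpace.inner_single_left]
  have hb : ∀ i j : Fin 3, (bv i : E3) j = if j = i then 1 else 0 := by
    intro i j
    simp [bv]
  have hsq : ‖y‖ ^ 2 = y 0 ^ 2 + y 1 ^ 2 + y 2 ^ 2 := by
    rw [EuclideanSpace.norm_sq_eq, Fin.sum_univ_three]
    simp
  simp only [wed, cf_deriv s h, cf_apply, hi, hb]
  simp only [Fin.reduceEq, if_true, if_false]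
  have e : y 0 ^ 2 = ‖y‖ ^ 2 - y 1 ^ 2 - y 2 ^ 2 := by rw [hsq]; ring
  field_simp
  ring_nf
  rw [e]
  ring

theorem cf_zf (s : ℝ) {y : E3} (h : y ≠ 0) : cf s y (zf y) = 1 := by
  have hn : ‖y‖ ≠ 0 := norm_ne_zero_iff.mpr h
  rw [cf_apply]
  simp [zf, bv, hn]

private theorem target_sub {e : OpenPartialHomeomorph X3 E3} (he : e ∈ atlas E3 X3) :
    e.target ⊆ {0}ᶜ := by
  obtain ⟨a, rfl⟩ := mem_atl.mp he
  intro y hy
  rw [cht_target] at hy
  exact hy.1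

/-- The contact form on X3. -/
noncomputable def al (s : ℝ) : OneForm X3 where
  loc := fun _ => cf s
  smooth := fun e he => (cf_smooth s).mono (target_sub he)
  compat := by
    intro e he e' he' x hx
    have h0 : e x ≠ 0 := target_sub he (e.map_source hx.1)
    obtain ⟨a, rfl⟩ := mem_atl.mp he
    obtain ⟨b, rfl⟩ := mem_atl.mp he'
    obtain ⟨n, h1, h2⟩ := fderiv_change hx.1 hx.2
    rw [h2, h1]
    exact (cf_dil s h0 (zpow_pos (by norm_num) n)).symm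

/-- The transverse vector field on X3. -/
noncomputable def zz : VField X3 where
  loc := fun _ => zf
  smooth := fun e he => zf_smooth.mono (target_sub he)
  compat := by
    intro e he e' he' x hx
    obtain ⟨a, rfl⟩ := mem_atl.mp he
    obtain ⟨b, rfl⟩ := mem_atl.mp he'
    obtain ⟨n, h1, h2⟩ := fderiv_change hx.1 hx.2
    rw [h2, h1, zf_dil _ (zpow_pos (by norm_num) n)]
    rfl

theorem al_pos : PosContact (al 1) := by
  intro e he y hy
  have h0 : y ≠ 0 := target_sub he hy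
  have hn : 0 < ‖y‖ := norm_pos_iff.mpr h0
  change 0 < wed (cf 1) y
  rw [wed_cf 1 h0]
  positivity

theorem al_neg : NegContact (al (-1)) := by
  intro e he y hy
  have h0 : y ≠ 0 := target_sub he hy
  have hn : 0 < ‖y‖ := norm_pos_iff.mpr h0
  change wed (cf (-1)) y < 0
  rw [wed_cf (-1) h0, neg_one_mul, neg_div]
  have : 0 < (‖y‖ ^ 2 + (y 2) ^ 2) / ‖y‖ ^ 5 := by positivity
  linarith

theorem al_trans : ∀ e ∈ atlas E3 X3, ∀ y ∈ e.target,
    0 < (al (-1)).loc e y (zz.loc e y) ∧ 0 < (al 1).loc e y (zz.loc e y) := by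
  intro e he y hy
  have h0 : y ≠ 0 := target_sub he hy
  change 0 < cf (-1) y (zf y) ∧ 0 < cf 1 y (zf y)
  rw [cf_zf (-1) h0, cf_zf 1 h0]
  exact ⟨one_pos, one_pos⟩

end Pool.Agent.Lib.MP_ca0971_gt.Mf
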