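import Pool.Agent.Lib.MP_ca0971_gt.Mf.Forms
import Pool.Agent.Lib.MP_ca0971_gt.OT.TopDefs

/-!
# MP_ca0971_gt: the cover R^3 - 0 in the standard contact R^3

psi s (X, Y, w) = ((X + s i Y) / sqrt r, w), s = 1 or -1, is an injective immersion and pulls the standard
form dw + X dY - Y dX back to r α_s (the terms with dr cancel). Injective: from p = psi y one finds r by
|p_1|^2 r + w^2 = r^2 (increasing).
-/

set_option autoImplicit false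

namespace Pool.Agent.Lib.MP_ca0971_gt.Mf

open Set Metric
open scoped Manifold ContDiff

noncomputable def psi (s : ℝ) (y : E3) : ℂ × ℝ :=
  (⟨y 0 / Real.sqrt ‖y‖, s * y 1 / Real.sqrt ‖y‖⟩, y 2)

private theorem coord_sm (i : Fin 3) : ContDiff ℝ ∞ (fun y : E3 => y i) :=
  (EuclideanSpace.proj i : E3 →L[ℝ] ℝ).contDiff

private theorem psi_eq (s : ℝ) : psi s =
    fun y : E3 => (Complex.equivRealProdCLM.symm (y 0 / Real.sqrt ‖y‖, s * y 1 / Real.sqrt ‖y‖), y 2) := by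
  funext y
  rfl

private theorem nsq (y : E3) : ‖y‖ ^ 2 = y 0 ^ 2 + y 1 ^ 2 + y 2 ^ 2 := by
  rw [EuclideanSpace.norm_sq_eq, Fin.sum_univ_three]
  simp

theorem psi_smooth (s : ℝ) : ContDiffOn ℝ ∞ (psi s) {0}ᶜ := by
  have hn : ContDiffOn ℝ ∞ (fun y : E3 => ‖y‖) {0}ᶜ := ContDiffOn.norm ℝ contDiffOn_id fun y hy => hy
  have hp : ∀ y ∈ ({0}ᶜ : Set E3), ‖y‖ ≠ 0 := fun y hy => norm_ne_zero_iff.mpr hy
  have hs : ContDiffOn ℝ ∞ (fun y : E3 => Real.sqrt ‖y‖) {0}ᶜ := hn.sqrt hp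
  have hq : ∀ y ∈ ({0}ᶜ : Set E3), Real.sqrt ‖y‖ ≠ 0 := fun y hy =>
    Real.sqrt_ne_zero'.mpr (norm_pos_iff.mpr hy)
  rw [psi_eq]
  refine ContDiffOn.prodMk ?_ (coord_sm 2).contDiffOn
  refine (Complex.equivRealProdCLM.symm.contDiff (n := ∞)).comp_contDiffOn ?_
  refine ContDiffOn.prodMk ?_ ?_
  · exact (coord_sm 0).contDiffOn.div hs hq
  · exact (contDiffOn_const.mul (coord_sm 1).contDiffOn).div hs hq

theorem psi_inj {s : ℝ} (hs : s ^ 2 = 1) : InjOn (psi s) {0}ᶜ := by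
  intro y hy z hz h
  have hy0 : 0 < ‖y‖ := norm_pos_iff.mpr hy
  have hz0 : 0 < ‖z‖ := norm_pos_iff.mpr hz
  have h0 : y 0 / Real.sqrt ‖y‖ = z 0 / Real.sqrt ‖z‖ := congrArg (fun p : ℂ × ℝ => p.1.re) h
  have h1 : s * y 1 / Real.sqrt ‖y‖ = s * z 1 / Real.sqrt ‖z‖ := congrArg (fun p : ℂ × ℝ => p.1.im) h
  have h2 : y 2 = z 2 := congrArg (fun p : ℂ × ℝ => p.2) h
  set a := y 0 / Real.sqrt ‖y‖ with ha
  set b := s * y 1 / Real.sqrt ‖y‖ with hb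
  have sy : Real.sqrt ‖y‖ ^ 2 = ‖y‖ := Real.sq_sqrt hy0.le
  have sz : Real.sqrt ‖z‖ ^ 2 = ‖z‖ := Real.sq_sqrt hz0.le
  have py : 0 < Real.sqrt ‖y‖ := Real.sqrt_pos.mpr hy0
  have pz : 0 < Real.sqrt ‖z‖ := Real.sqrt_pos.mpr hz0
  have hy_0 : y 0 = Real.sqrt ‖y‖ * a := by rw [ha]; field_simp
  have hy_1 : s * y 1 = Real.sqrt ‖y‖ * b := by rw [hb]; field_simp
  have hz_0 : z 0 = Real.sqrt ‖z‖ * a := by rw [h0]; field_simp
  have hz_1 : s * z 1 = Real.sqrt ‖z‖ * b := by rw [h1]; field_simp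
  have ey : ‖y‖ ^ 2 = ‖y‖ * (a ^ 2 + b ^ 2) + y 2 ^ 2 := by
    rw [nsq]
    have e1 : y 0 ^ 2 = ‖y‖ * a ^ 2 := by rw [hy_0, mul_pow, sy]
    have e2 : y 1 ^ 2 = ‖y‖ * b ^ 2 := by
      have : (s * y 1) ^ 2 = ‖y‖ * b ^ 2 := by rw [hy_1, mul_pow, sy]
      rw [mul_pow, hs, one_mul] at this
      exact this
    rw [e1, e2]; ring
  have ez : ‖z‖ ^ 2 = ‖z‖ * (a ^ 2 + b ^ 2) + y 2 ^ 2 := by
    rw [nsq]
    have e1 : z 0 ^ 2 = ‖z‖ * a ^ 2 := by rw [hz_0, mul_pow, sz]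
    have e2 : z 1 ^ 2 = ‖z‖ * b ^ 2 := by
      have : (s * z 1) ^ 2 = ‖z‖ * b ^ 2 := by rw [hz_1, mul_pow, sz]
      rw [mul_pow, hs, one_mul] at this
      exact this
    rw [e1, e2, h2]; ring
  have hr : ‖y‖ = ‖z‖ := by
    by_contra hne
    have h3 : (‖y‖ - ‖z‖) * (‖y‖ + ‖z‖ - (a ^ 2 + b ^ 2)) = 0 := by nlinarith
    rcases mul_eq_zero.mp h3 with h4 | h4
    · exact hne (sub_eq_zero.mp h4)
    · have h5 : 0 < ‖y‖ * ‖z‖ := mul_pos hy0 hz0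
      have h6 : a ^ 2 + b ^ 2 = ‖y‖ + ‖z‖ := by linarith
      rw [h6] at ey
      nlinarith [sq_nonneg (y 2)]
  have hs0 : s ≠ 0 := by
    rintro rfl
    norm_num at hs
  ext i
  fin_cases i
  · show y 0 = z 0
    rw [hy_0, hz_0, hr]
  · show y 1 = z 1
    refine mul_left_cancel₀ hs0 ?_
    rw [hy_1, hz_1, hr]
  · exact h2

private theorem norm_deriv {y : E3} (h : y ≠ 0) :
    HasFDerivAt (fun y : E3 => ‖y‖) (‖y‖⁻¹ • innerSL ℝ y) y := by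
  have hn : ‖y‖ ≠ 0 := norm_ne_zero_iff.mpr h
  have h1 : HasFDerivAt (fun y : E3 => ‖y‖ ^ 2) (2 • innerSL ℝ y) y :=
    (hasStrictFDerivAt_norm_sq y).hasFDerivAt
  have h2 := h1.sqrt (by positivity)
  have h3 : (fun y : E3 => √(‖y‖ ^ 2)) = fun y => ‖y‖ := by
    ext z; exact Real.sqrt_sq (norm_nonneg z)
  rw [h3, Real.sqrt_sq (norm_nonneg y)] at h2
  refine h2.congr_fderiv ?_
  ext u
  simp only [smul_apply, smul_eq_mul, nsmul_eq_mul, Nat.cast_ofNat]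
  field_simp

/-- `q = 1 / sqrt r` and its derivative. -/
private theorem q_deriv {y : E3} (h : y ≠ 0) :
    HasFDerivAt (fun y : E3 => (Real.sqrt ‖y‖)⁻¹)
      ((-(Real.sqrt ‖y‖)⁻¹ * (2 * ‖y‖ ^ 2)⁻¹) • innerSL ℝ y) y := by
  have hn : 0 < ‖y‖ := norm_pos_iff.mpr h
  have hq : 0 < Real.sqrt ‖y‖ := Real.sqrt_pos.mpr hn
  have h2 := (norm_deriv h).sqrt hn.ne'
  have h4 := (hasDerivAt_inv hq.ne').comp_hasFDerivAt y h2
  refine h4.congr_fderiv ?_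
  ext u
  have e : Real.sqrt ‖y‖ ^ 2 = ‖y‖ := Real.sq_sqrt hn.le
  simp only [smul_apply, smul_eq_mul]
  rw [e]
  field_simp

private theorem psi_fd (s : ℝ) {y : E3} (h : y ≠ 0) (u : E3) :
    fderiv ℝ (psi s) y u =
      (⟨(Real.sqrt ‖y‖)⁻¹ * (u 0 - y 0 * ((2 * ‖y‖ ^ 2)⁻¹ * inner ℝ y u)),
        (Real.sqrt ‖y‖)⁻¹ * (s * (u 1 - y 1 * ((2 * ‖y‖ ^ 2)⁻¹ * inner ℝ y u)))⟩, u 2) := by
  have hq := q_deriv h
  have hc : ∀ i : Fin 3, HasFDerivAt (fun y : E3 => y i) (EuclideanSpace.proj i : E3 →L[ℝ] ℝ) y :=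
    fun i => (EuclideanSpace.proj i : E3 →L[ℝ] ℝ).hasFDerivAt
  have h0 := (hc 0).mul hq
  have h1 := ((hc 1).const_mul s).mul hq
  have h2 := Complex.equivRealProdCLM.symm.hasFDerivAt.comp y (h0.prodMk h1)
  have h3 := h2.prodMk (hc 2)
  have e : psi s = fun y : E3 => (Complex.equivRealProdCLM.symm (y 0 * (Real.sqrt ‖y‖)⁻¹,
      s * y 1 * (Real.sqrt ‖y‖)⁻¹), y 2) := by
    rw [psi_eq]
    simp only [div_eq_mul_inv]
  have h4 := h3.fderiv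
  change fderiv ℝ (fun y : E3 => (Complex.equivRealProdCLM.symm (y 0 * (Real.sqrt ‖y‖)⁻¹,
      s * y 1 * (Real.sqrt ‖y‖)⁻¹), y 2)) y = _ at h4
  rw [← e] at h4
  rw [h4]
  refine Prod.ext ?_ rfl
  refine Complex.ext ?_ ?_
  · simp
    ring
  · simp
    ring

theorem psi_imm {s : ℝ} (hs : s ^ 2 = 1) {y : E3} (h : y ≠ 0) :
    Function.Injective (fderiv ℝ (psi s) y) := by
  rw [injective_iff_map_eq_zero]
  intro u hu
  rw [psi_fd s h] at hu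
  have hn : 0 < ‖y‖ := norm_pos_iff.mpr h
  have hq : 0 < Real.sqrt ‖y‖ := Real.sqrt_pos.mpr hn
  have hs0 : s ≠ 0 := by
    rintro rfl
    norm_num at hs
  set t := (2 * ‖y‖ ^ 2)⁻¹ * inner ℝ y u with ht
  have h0 : (Real.sqrt ‖y‖)⁻¹ * (u 0 - y 0 * t) = 0 := congrArg (fun p : ℂ × ℝ => p.1.re) hu
  have h1 : (Real.sqrt ‖y‖)⁻¹ * (s * (u 1 - y 1 * t)) = 0 := congrArg (fun p : ℂ × ℝ => p.1.im) hu
  have h2 : u 2 = 0 := congrArg (fun p : ℂ × ℝ => p.2) hu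
  have e0 : u 0 = y 0 * t := by
    rcases mul_eq_zero.mp h0 with h3 | h3
    · exact absurd h3 (inv_ne_zero hq.ne')
    · linarith
  have e1 : u 1 = y 1 * t := by
    rcases mul_eq_zero.mp h1 with h3 | h3
    · exact absurd h3 (inv_ne_zero hq.ne')
    · rcases mul_eq_zero.mp h3 with h4 | h4
      · exact absurd h4 hs0
      · linarith
  have hin : inner ℝ y u = y 0 * u 0 + y 1 * u 1 + y 2 * u 2 := by
    simp [PiLp.inner_apply, Fin.sum_univ_three]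
    ring
  have ht2 : 2 * ‖y‖ ^ 2 * t = inner ℝ y u := by
    rw [ht]; field_simp
  have key : (y 0 ^ 2 + y 1 ^ 2 + 2 * y 2 ^ 2) * t = 0 := by
    rw [hin, nsq, e0, e1, h2] at ht2
    linarith
  have ht0 : t = 0 := by
    rcases mul_eq_zero.mp key with h3 | h3
    · exfalso
      have := nsq y
      nlinarith [sq_nonneg (y 0), sq_nonneg (y 1), sq_nonneg (y 2)]
    · exact h3
  ext i
  fin_cases i
  · show u 0 = 0
    rw [e0, ht0, mul_zero]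
  · show u 1 = 0
    rw [e1, ht0, mul_zero]
  · exact h2

theorem psi_pull {s : ℝ} (hs : s ^ 2 = 1) {y : E3} (h : y ≠ 0) (u : E3) :
    OT.stdB (psi s y) (fderiv ℝ (psi s) y u) = ‖y‖ * cf s y u := by
  have hn : 0 < ‖y‖ := norm_pos_iff.mpr h
  have hq : 0 < Real.sqrt ‖y‖ := Real.sqrt_pos.mpr hn
  rw [psi_fd s h, cf_apply]
  have e : Real.sqrt ‖y‖ ^ 2 = ‖y‖ := Real.sq_sqrt hn.le
  have e' : (Real.sqrt ‖y‖)⁻¹ * (Real.sqrt ‖y‖)⁻¹ = ‖y‖⁻¹ := by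
    rw [← mul_inv, ← sq, e]
  simp only [OT.stdB, OT.dt, psi, div_eq_mul_inv]
  set q := (Real.sqrt ‖y‖)⁻¹
  have h3 : ‖y‖ * ‖y‖⁻¹ = 1 := mul_inv_cancel₀ hn.ne'
  have h4 : ‖y‖ * (‖y‖⁻¹ * (u 2 + s * ‖y‖⁻¹ * (y 0 * u 1 - y 1 * u 0))) =
      u 2 + s * (q * q) * (y 0 * u 1 - y 1 * u 0) := by
    rw [← mul_assoc, h3, one_mul, e']
  rw [h4]
  ring

end Pool.Agent.Lib.MP_ca0971_gt.Mf
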