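import Pool.Agent.Lib.MP_ca0971_gt.Mf.Ex

/-!
# MP_ca0971_gt: topology and smooth structure of X3
-/

set_option autoImplicit false

namespace Pool.Agent.Lib.MP_ca0971_gt.Mf

open Set Metric
open scoped Manifold ContDiff

instance : CompactSpace X3 := inferInstanceAs (CompactSpace (AddCircle (Real.log 2) × S2))

instance : T2Space X3 := inferInstanceAs (T2Space (AddCircle (Real.log 2) × S2))

instance : SecondCountableTopology X3 :=
  inferInstanceAs (SecondCountableTopology (AddCircle (Real.log 2) × S2))

theorem top_rank : 1 < Module.rank ℝ E3 := by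
  have h : Module.rank ℝ E3 = 3 := by
    rw [← Module.finrank_eq_rank]
    simp [E3]
  rw [h]
  norm_num

/-- the 2-sphere is connected -/
theorem top_S2 : ConnectedSpace S2 :=
  isConnected_iff_connectedSpace.1 (isConnected_sphere top_rank (0 : E3) zero_le_one)

/-- the circle is connected -/
theorem top_S1 : ConnectedSpace (AddCircle (Real.log 2)) :=
  QuotientAddGroup.mk_surjective.connectedSpace continuous_quot_mk

/-- AddCircle is connected (quotient of R), the sphere of a 3-dimensional space too. -/
instance : ConnectedSpace X3 :=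
  have := top_S1
  have := top_S2
  inferInstanceAs (ConnectedSpace (AddCircle (Real.log 2) × S2))

/-- isManifold_of_contDiffOn, coordinate changes are locally dilations (cht_change). -/
theorem isMfd : IsManifold (𝓡 3) ∞ X3 := by
  refine isManifold_of_contDiffOn (𝓡 3) ∞ X3 ?_
  intro e e' he he'
  obtain ⟨a, rfl⟩ := mem_atl.1 he
  obtain ⟨b, rfl⟩ := mem_atl.1 he'
  intro y hy
  simp only [modelWithCornersSelf_coe, modelWithCornersSelf_coe_symm, Function.id_comp,
    Function.comp_id, preimage_id, range_id, inter_univ] at hy ⊢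
  have hy' : y ∈ (cht a).target ∧ (cht a).symm y ∈ (cht b).source := by
    simpa [OpenPartialHomeomorph.trans_source] using hy
  have hx : (cht a).symm y ∈ (cht a).source := (cht a).map_target hy'.1
  obtain ⟨-, n, -, h⟩ := cht_change hx hy'.2
  rw [(cht a).right_inv hy'.1] at h
  refine ContDiffAt.contDiffWithinAt ?_
  exact (contDiff_id.const_smul ((2 : ℝ) ^ n)).contDiffAt.congr_of_eventuallyEq h

/-- The determinant of 2^n id is positive (fderiv_change). -/
theorem oriented : OrientedAtlas X3 := by
  intro e he e' he' x hx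
  obtain ⟨a, rfl⟩ := mem_atl.1 he
  obtain ⟨b, rfl⟩ := mem_atl.1 he'
  obtain ⟨n, -, h⟩ := fderiv_change hx.1 hx.2
  rw [h]
  have h1 : ((2 : ℝ) ^ n • ContinuousLinearMap.id ℝ E3).det = ((2 : ℝ) ^ n) ^ 3 := by
    change LinearMap.det (((2 : ℝ) ^ n • ContinuousLinearMap.id ℝ E3 : E3 →L[ℝ] E3) :
      E3 →ₗ[ℝ] E3) = _
    rw [ContinuousLinearMap.toLinearMap_smul, LinearMap.det_smul]
    simp [E3]
  rw [h1]
  positivity

end Pool.Agent.Lib.MP_ca0971_gt.Mf
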